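import Pool.Agent.N98.PJ.RelP
import Pool.Agent.N762.RC2.UFin

/-!
MP_b525bf_ag: resolution of singularities, in all dimensions, of the quasi-projective varieties over
a perfect field `k` of characteristic `p` which are fibred over a surface with fibres of dimension
`r` and degree at most `δ`, where `p > δ ^ 2 ^ r`, and of their radical covers of arbitrary degree,
with arbitrary exponents (also divisible by `p`).

Let `E` be the function field of a surface over `k` (or a field with log smooth models), `e ≥ 0`,
and let `X₀` be a variety of dimension `r` and degree at most `δ` in the affine space of dimension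
`N` over the field `E ^ (p ^ e)`. Let `Y` be a variety in the affine space over `E` which is a
component of the inverse image of `X₀` under the map
`(y 1, ..., y N) ↦ (y 1 ^ m 1, ..., y N ^ m N)`, where the exponents `m i` are not divisible by
`p ^ (e + 1)`, and otherwise arbitrary. Let `K` be generated over the function field `K₀` of `Y` by
elements `w j` such that `(w j) ^ (n j)`, with `n j` prime to `p`, is a product of powers of elements
of `E`, of the `y i`, and of polynomials over `E ^ (p ^ e)` of degree at most `s` in the
`y i ^ m i`. The projective varieties over `k` with the function field `K` whose homogeneous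
coordinates are products of such elements and of powers of the `w j`, and all their open
subschemes, have a resolution of singularities if `(s * δ) ^ 2 ^ r < p` or
`(max s δ) ^ 2 ^ (N - 1) < p`. The degrees of these varieties, and of their fibres over the surface,
are not bounded.

The case `e = 0`, `m i = 1`, `s = 1`, without the `w j`: the closed subvarieties of the product of a
projective surface and of a projective space whose fibres over the surface have dimension `r` and
degree at most `δ` with `δ ^ 2 ^ r < p`, and all their open subsets, have a resolution. With the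
`w j`: their radical covers of arbitrary degree prime to `p` along products of linear forms. An
example with `e = 1`: `z ^ p = f (a ^ p, b ^ p, x 1, ..., x n)`, where `a, b` are coordinates of the
surface, and `f` is of degree at most `δ` in `x 1, ..., x n`.

The proof: let `m i = p ^ ε i * n' i` with `p ∤ n' i`, `z i = y i ^ n' i`; we order the coordinates
so that `ε 1 ≤ ... ≤ ε N`.

(1) The equations of the `t i = z i ^ p ^ ε i` of degree `< p` show that the field `E (z)` is
separable over `E (z (j 1), ..., z (j r))`, where the `z (j c)` are a transcendence basis of greatest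
exponents (`RC2.sepb`). A general linear projection over `F = E ^ (p ^ e)` of the variety with the
generic point `t` has coordinates `u = ∑ c i * t i` and the `t (j c)`, and the `t i` are rational
functions of degree at most `δ` in them; hence the `z i` are in the field generated over `E` by `u`
and the `z (j c)`, since they are separable over this field, and their powers `t i` are in it
(`RC2.proj`).

(2) For the coordinates `u, z (j 1), ..., z (j r)`, with the exponents `0, ε (j 1), ..., ε (j r)`,
models are constructed, by induction on the number of the coordinates, on which given polynomials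
in the powers have their zeros and poles in a normal crossings divisor. The discriminants and
resultants of polynomials of degree `< p` in the first coordinate, with coefficients polynomials in
powers of the others, and of their derivatives, are again of this form (`RC.main`).

(3) A root of a function whose zeros and poles are in the boundary has the same property
(`RC2.isBr_of_pow`). Radical extensions with exponents prime to `p` are toroidal over such a model.

helper762, helper98; built on the library of helper98 and on the library of the starting files
(helpers 558, 214, 973, 418, 968 and others). This theorem contains the former hand-ins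
`RelativeBoundedDegree` (helper98), `TameRadicalCovers` and `WildRadicalCovers` (helper762) on this
problem.
-/

set_option autoImplicit false

open AlgebraicGeometry CategoryTheory Pool.Agent.W558 Pool.Agent.N98

namespace Pool.Agent.Results.MP_b525bf_ag.RadicalCoversBoundedDegree

/-- The values at the point `x` of the polynomials over `F` of total degree at most `t`. -/
noncomputable def values (F : Type) {K : Type} [Field F] [Field K] [Algebra F K] {N : ℕ}
    (x : Fin N → K) (t : ℕ) : Submodule F K :=
  (MvPolynomial.restrictTotalDegree (Fin N) F t).map
    (MvPolynomial.aeval x : MvPolynomial (Fin N) F →ₐ[F] K).toLinearMap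

/-- The variety in the affine space over `F` with the generic point `x` (the zeros of the
polynomials over `F` which vanish at `x`), whose function field is `F (x)`, has dimension `r` and
degree at most `δ`: its Hilbert function, the dimension over `F` of the space of the polynomial
functions of degree at most `t` on the variety, is at most `δ * t ^ r / r! + O (t ^ (r - 1))`. -/
def DegreeAtMost (F : Type) {K : Type} [Field F] [Field K] [Algebra F K] {N : ℕ}
    (x : Fin N → K) (r δ : ℕ) : Prop :=
  Algebra.trdeg F (IntermediateField.adjoin F (Set.range x)) = r ∧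
    ∃ C : ℕ, ∀ t : ℕ, r.factorial * Module.finrank F (values F x t) ≤ δ * (t + C) ^ r

/-- The element `z` is the product of an element of `E`, of (positive or negative) powers of the
`y i`, and of powers of values at `(y 1 ^ m 1, ..., y N ^ m N)` of polynomials over `F` of degree
at most `s`. -/
def IsProduct (F E : Type) {K : Type} [Field F] [Field E] [Field K] [Algebra F K] [Algebra E K]
    {N : ℕ} (y : Fin N → K) (m : Fin N → ℕ) (s : ℕ) (z : K) : Prop :=
  ∃ (c : E) (a : Fin N → ℤ) (q : ℕ) (G : Fin q → MvPolynomial (Fin N) F) (e : Fin q → ℤ),
    (∀ b, (G b).totalDegree ≤ s) ∧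
      z = algebraMap E K c * (∏ i, y i ^ a i) *
        ∏ b, (MvPolynomial.aeval (fun i => y i ^ m i) (G b)) ^ e b

/-- The elements `w j` generate `K` over `K₀`, and `(w j) ^ (n j)` is, for an exponent `n j` prime
to `p`, a product in the sense of `IsProduct`. -/
structure IsTameRadical (p : ℕ) (F E : Type) {K₀ K : Type} [Field F] [Field E] [Field K₀]
    [Algebra F K₀] [Algebra E K₀] [Field K] [Algebra K₀ K] {N : ℕ} (y : Fin N → K₀)
    (m : Fin N → ℕ) (s : ℕ) {g : ℕ} (w : Fin g → K) (n : Fin g → ℕ) : Prop where
  ne_zero : ∀ j, w j ≠ 0
  prime_to : ∀ j, ¬ p ∣ n j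
  radical : ∀ j, ∃ z, IsProduct F E y m s z ∧ w j ^ n j = algebraMap K₀ K z
  generate : IntermediateField.adjoin K₀ (Set.range w) = ⊤

/-- The element `x` of `K` is the product of an element of `K₀` which is a product in the sense of
`IsProduct`, and of powers of the `w j`. -/
def IsProductOfRadicals (F E : Type) {K₀ K : Type} [Field F] [Field E] [Field K₀] [Algebra F K₀]
    [Algebra E K₀] [Field K] [Algebra K₀ K] {N : ℕ} (y : Fin N → K₀) (m : Fin N → ℕ) (s : ℕ)
    {g : ℕ} (w : Fin g → K) (x : K) : Prop :=
  ∃ (z : K₀) (e : Fin g → ℤ), IsProduct F E y m s z ∧ x = algebraMap K₀ K z * ∏ j, w j ^ e j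

/-- The homomorphism `ξ` is a homogeneous generic point of the projective variety `Proj S` over
`k`, where `S = ⨁ 𝒜 t`, and `K` is the function field: `ξ` is injective on the homogeneous parts of
`S`, and the elements of `K` are the quotients of the values at `ξ` of homogeneous elements of `S`
of the same degree. -/
structure IsGenericPoint {k S K : Type} [Field k] [CommRing S] [Algebra k S]
    (𝒜 : ℕ → Submodule k S) [Field K] [Algebra k K] (ξ : S →ₐ[k] K) : Prop where
  injective : ∀ n, ∀ s ∈ 𝒜 n, ξ s = 0 → s = 0
  fractions : ∀ z : K, ∃ n, ∃ s ∈ 𝒜 n, ∃ t ∈ 𝒜 n, ξ t ≠ 0 ∧ z = ξ s / ξ t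

/-- Let `k` be a perfect field of characteristic `p`. Let `E` be the function field of a smooth
projective surface over `k`, or an extension of `k` such that any finite family of nonzero elements
of `E` has its zeros and poles in a simple normal crossings divisor on some smooth projective
variety with function field `E` (`HasLogModels`). Let `F` be a field of `p ^ e`-th powers of
elements of `E` over which `E` is algebraic, for example `F = E ^ (p ^ e)`; if `e = 0`, then `F`
can be `E`. Let `y` be the generic point of an affine variety over `E` with function field `K₀`,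
and let the exponents `m i` be not divisible by `p ^ (e + 1)` and such that
`(y 1 ^ m 1, ..., y N ^ m N)` is the generic point of an affine variety over `F` of dimension `r`
and degree at most `δ`. Let `K` be generated over `K₀` by elements `w j` such that `(w j) ^ (n j)`,
where `n j` is prime to `p`, is a product of an element of `E`, of powers of the `y i`, and of
powers of polynomials over `F` of degree at most `s` in the `y i ^ m i`. Suppose that
`(s * δ) ^ 2 ^ r < p` and `F` is infinite (for example, `E` is the function field of a surface), or
that `(max s δ) ^ 2 ^ (N - 1) < p`. Let `X = Proj S` be a projective variety over `k` with function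
field `K`, where `S` is a graded domain over `k` generated by finitely many elements
`b 1, ..., b l` of degree one, and suppose that the homogeneous coordinates
`ξ (b 1), ..., ξ (b l)` of the generic point of `X` are products of such elements and of powers of
the `w j`. Then each nonempty open subscheme `U` of `X` has a resolution of singularities. -/
theorem result (p : ℕ) [Fact p.Prime] (k F E K₀ K S : Type) [Field k] [PerfectField k] [CharP k p]
    [Field E] [Algebra k E]
    (hE : (Algebra.trdeg k E = 2 ∧ HasModel k E) ∨ HasLogModels k E)
    (e : ℕ) [Field F] [Algebra F E] [Algebra.IsAlgebraic F E]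
    (hF : ∀ a : F, ∃ b : E, b ^ p ^ e = algebraMap F E a)
    [Field K₀] [Algebra E K₀] [Algebra k K₀] [IsScalarTower k E K₀] [Algebra F K₀]
    [IsScalarTower F E K₀] (N r δ s : ℕ) (y : Fin N → K₀)
    (hy : IntermediateField.adjoin E (Set.range y) = ⊤) (m : Fin N → ℕ)
    (hm : ∀ i, ¬ p ^ (e + 1) ∣ m i) (hδ : DegreeAtMost F (fun i => y i ^ m i) r δ) (hs : 1 ≤ s)
    (hp : (Infinite F ∧ (s * δ) ^ 2 ^ r < p) ∨ max s δ ^ 2 ^ (N - 1) < p)
    [Field K] [Algebra K₀ K] [Algebra k K] [IsScalarTower k K₀ K]
    (g : ℕ) (w : Fin g → K) (n : Fin g → ℕ) (hw : IsTameRadical p F E y m s w n)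
    [CommRing S] [IsDomain S] [Algebra k S] (𝒜 : ℕ → Submodule k S) [GradedAlgebra 𝒜]
    (hS : Algebra.adjoin k (𝒜 1 : Set S) = ⊤) (hS1 : 𝒜 1 ≠ ⊥)
    (l : ℕ) (b : Fin l → S) (hb : Submodule.span k (Set.range b) = 𝒜 1)
    (ξ : S →ₐ[k] K) (hξ : IsGenericPoint 𝒜 ξ)
    (hform : ∀ i, IsProductOfRadicals F E y m s w (ξ (b i)))
    (U : (Proj 𝒜).Opens) (hU : (U : Set (Proj 𝒜)).Nonempty) :
    IsResolvableVariety (k := k) (X := U.toScheme)
      (U.ι ≫ Proj.toSpecZero 𝒜 ≫ Spec.map (CommRingCat.ofHom (algebraMap k (𝒜 0)))) := by
  classical
  obtain ⟨htr, C, hC⟩ := hδ
  have hE' : Pool.Agent.W418.LCI.HasLM k E := by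
    rcases hE with ⟨h2, hE⟩ | hE
    · exact Pool.Agent.W418.LCI.hasLM_of_surface k E h2 hE
    · exact Pool.Agent.W418.LCI.hasLM_of_models k E hE
  choose zw hzw hwz using hw.radical
  choose zb eb hzb hbz using hform
  have hzw0 : ∀ j, zw j ≠ 0 := by
    intro j h
    apply pow_ne_zero (n j) (hw.ne_zero j)
    rw [hwz j, h, map_zero]
  -- all products which are not zero
  let P := Fin g ⊕ {j : Fin l // zb j ≠ 0}
  let Z : P → K₀ := Sum.elim zw fun j => zb j
  have hZ0 : ∀ b, Z b ≠ 0 := by
    rintro (j | j)
    · exact hzw0 j
    · exact j.2
  have hZ : ∀ b, IsProduct F E y m s (Z b) := by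
    rintro (j | j)
    · exact hzw j
    · exact hzb j
  choose c a q G e' hG hz using hZ
  obtain ⟨T, I, hT, hI, M, hFr, hM1, hM2⟩ : ∃ (T I : Type) (_ : Finite T) (_ : Fintype I)
      (M : LM (⊥ : Subalgebra k K) ⊤ T I),
      Frc M ∧ (∀ b, IsBr M (algebraMap K₀ K (Z b))) ∧ ∀ j, IsBr M (w j) := by
    rcases hp with ⟨hinf, hp⟩ | hp
    · exact Pool.Agent.N762.RC2.ufin p hE' y m e hm hF hy r δ C htr hC s hs
        (factorial_ne_zero_of_lt p (Fact.out : p.Prime) hp) P Z hZ0 c a q G e' hG hz w
        hw.ne_zero n hw.prime_to Sum.inl hwz hw.generate
    · exact Pool.Agent.N762.RC.rfin p hE' y m e hm hF hy r (max s δ) C htr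
        (fun t => (hC t).trans (Nat.mul_le_mul_right _ (le_max_right _ _)))
        (factorial_ne_zero_of_lt p (Fact.out : p.Prime) hp) P Z hZ0 c a q G e'
        (fun b i => (hG b i).trans (le_max_left _ _)) hz w
        hw.ne_zero n hw.prime_to Sum.inl hwz hw.generate
  refine PJ.isResolvable_open_of_isBr 𝒜 hS ξ hξ.injective hξ.fractions b hb M hFr
    (fun j hj => ?_) hS1 U hU
  rw [hbz j] at hj ⊢
  have hz0 : zb j ≠ 0 := by
    intro h
    apply hj
    rw [h, map_zero, zero_mul]
  exact IsBr.mul (hM1 (Sum.inr ⟨j, hz0⟩)) (IsBr.prod _ _ fun i _ => (hM2 i).zpow _)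

end Pool.Agent.Results.MP_b525bf_ag.RadicalCoversBoundedDegree
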