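import Pool.Agent.N98.PJ.RelP
import Pool.Agent.N762.RC.Kum

/-!
MP_b525bf_ag: resolution of singularities, in all dimensions, of tame radical covers of arbitrary
degree of the varieties which are fibred over a surface with fibres of bounded degree, over a
perfect field `k` of characteristic `p`.

Let `E` be the function field of a surface over `k` (or a field with log smooth models), and let
`K₀` be the function field of a variety over `E` of dimension `r` and degree `δ`, where
`p > δ ^ 2 ^ r`, with the affine coordinates `x j`. Let `K` be generated over `K₀` by elements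
`w j` such that `(w j) ^ (n j)` is a product of powers of affine linear forms in the `x j` over `E`.
The exponents `n j` are prime to `p`, but otherwise arbitrary, so that the degree of the variety is
not bounded. The projective varieties over `k` with the function field `K` whose homogeneous
coordinates are products of powers of linear forms and of the `w j`, and all their open
subschemes, have a resolution of singularities.

For example, this holds for (the irreducible components of) the inverse images of the
quasi-projective varieties over a surface with fibres of degree at most `δ` under the maps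
`(x 0 : ... : x N) ↦ (x 0 ^ n : ... : x N ^ n)`, for every `n` prime to `p`.

The proof: by the theorem of helper98 (`RelativeBoundedDegree` on this page) `K₀` has a smooth
proper model with a normal crossings divisor which contains the zeros and poles of all linear
forms which occur; a cover by roots of functions with zeros and poles in the divisor, with
exponents prime to `p`, has only toroidal singularities along the inverse image of the divisor
(`Pool.Agent.TH214.V.kummer_gm`), and so `K` has a smooth proper model on which the `w j` and the
linear forms have their zeros and poles in a normal crossings divisor.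

helper762; built on the library of helper98 and on the library of the starting files (helpers 558,
214, 973, 418 and others).
-/

set_option autoImplicit false

open AlgebraicGeometry CategoryTheory Pool.Agent.W558 Pool.Agent.N98

namespace Pool.Agent.Results.MP_b525bf_ag.TameRadicalCovers

/-- The values at the point `x` of the polynomials over `E` of total degree at most `t`. -/
noncomputable def values (E : Type) {K : Type} [Field E] [Field K] [Algebra E K] {N : ℕ}
    (x : Fin N → K) (t : ℕ) : Submodule E K :=
  (MvPolynomial.restrictTotalDegree (Fin N) E t).map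
    (MvPolynomial.aeval x : MvPolynomial (Fin N) E →ₐ[E] K).toLinearMap

/-- The variety in the affine space over `E` with the generic point `x` (the zeros of the
polynomials over `E` which vanish at `x`), whose function field is `K`, has dimension `r` and degree
at most `δ`: its Hilbert function, the dimension over `E` of the space of the polynomial functions
of degree at most `t` on the variety, is at most `δ * t ^ r / r! + O (t ^ (r - 1))`. -/
def DegreeAtMost (E : Type) {K : Type} [Field E] [Field K] [Algebra E K] {N : ℕ}
    (x : Fin N → K) (r δ : ℕ) : Prop :=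
  IntermediateField.adjoin E (Set.range x) = ⊤ ∧ Algebra.trdeg E K = r ∧
    ∃ C : ℕ, ∀ t : ℕ, r.factorial * Module.finrank E (values E x t) ≤ δ * (t + C) ^ r

/-- The element `z` is a product of (positive or negative) powers of affine linear forms
`a 0 + a 1 * x 1 + ... + a N * x N` with coefficients in `E`. -/
def IsProductOfForms (E : Type) {K : Type} [Field E] [Field K] [Algebra E K] {N : ℕ}
    (x : Fin N → K) (z : K) : Prop :=
  ∃ (q : ℕ) (a : Fin q → E) (b : Fin q → Fin N → E) (e : Fin q → ℤ),
    z = ∏ i, (algebraMap E K (a i) + ∑ j, algebraMap E K (b i j) * x j) ^ e i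

/-- The elements `w j` generate `K` over `K₀`, and `(w j) ^ (n j)` is, for an exponent `n j` prime
to `p`, a product of powers of affine linear forms in the `x i` with coefficients in `E`. -/
structure IsTameRadical (p : ℕ) (E : Type) {K₀ K : Type} [Field E] [Field K₀] [Algebra E K₀]
    [Field K] [Algebra K₀ K] {N : ℕ} (x : Fin N → K₀) {s : ℕ} (w : Fin s → K) (n : Fin s → ℕ) :
    Prop where
  ne_zero : ∀ j, w j ≠ 0
  prime_to : ∀ j, ¬ p ∣ n j
  radical : ∀ j, ∃ z, IsProductOfForms E x z ∧ w j ^ n j = algebraMap K₀ K z
  generate : IntermediateField.adjoin K₀ (Set.range w) = ⊤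

/-- The element `y` of `K` is the product of an element of `K₀` which is a product of powers of
affine linear forms in the `x i`, and of powers of the `w j`. -/
def IsProductOfRadicals (E : Type) {K₀ K : Type} [Field E] [Field K₀] [Algebra E K₀]
    [Field K] [Algebra K₀ K] {N : ℕ} (x : Fin N → K₀) {s : ℕ} (w : Fin s → K) (y : K) : Prop :=
  ∃ (z : K₀) (e : Fin s → ℤ), IsProductOfForms E x z ∧ y = algebraMap K₀ K z * ∏ j, w j ^ e j

/-- The homomorphism `ξ` is a homogeneous generic point of the projective variety `Proj S` over
`k`, where `S = ⨁ 𝒜 t`, and `K` is the function field: `ξ` is injective on the homogeneous parts of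
`S`, and the elements of `K` are the quotients of the values at `ξ` of homogeneous elements of `S`
of the same degree. -/
structure IsGenericPoint {k S K : Type} [Field k] [CommRing S] [Algebra k S]
    (𝒜 : ℕ → Submodule k S) [Field K] [Algebra k K] (ξ : S →ₐ[k] K) : Prop where
  injective : ∀ n, ∀ s ∈ 𝒜 n, ξ s = 0 → s = 0
  fractions : ∀ z : K, ∃ n, ∃ s ∈ 𝒜 n, ∃ t ∈ 𝒜 n, ξ t ≠ 0 ∧ z = ξ s / ξ t

/-- Let `k` be a perfect field of characteristic `p`. Let `E` be the function field of a smooth
projective surface over `k`, or an infinite extension of `k` such that any finite family of nonzero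
elements of `E` has its zeros and poles in a simple normal crossings divisor on some smooth
projective variety with function field `E` (`HasLogModels`). Let `x` be the generic point of an
affine variety over `E` of dimension `r` and degree at most `δ`, with function field `K₀`, where
`δ ^ 2 ^ r < p`. Let `K` be generated over `K₀` by elements `w j` such that `(w j) ^ (n j)` is a
product of powers of affine linear forms in `x` with coefficients in `E`, where the exponents
`n j` are prime to `p`. Let `X = Proj S` be a projective variety over `k` with function field `K`,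
where `S` is a graded domain over `k` generated by finitely many elements `b 1, ..., b m` of degree
one, and suppose that the homogeneous coordinates `ξ (b 1), ..., ξ (b m)` of the generic point of
`X` are products of powers of affine linear forms in `x` and of the `w j`. Then each nonempty open
subscheme `U` of `X` has a resolution of singularities. -/
theorem result (p : ℕ) [Fact p.Prime] (k E K₀ K S : Type) [Field k] [PerfectField k] [CharP k p]
    [Field E] [Algebra k E]
    (hE : (Algebra.trdeg k E = 2 ∧ HasModel k E) ∨ (Infinite E ∧ HasLogModels k E))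
    [Field K₀] [Algebra E K₀] [Algebra k K₀] [IsScalarTower k E K₀]
    (N r δ : ℕ) (x : Fin N → K₀) (hx : DegreeAtMost E x r δ) (hp : δ ^ 2 ^ r < p)
    [Field K] [Algebra K₀ K] [Algebra k K] [IsScalarTower k K₀ K]
    (s : ℕ) (w : Fin s → K) (n : Fin s → ℕ) (hw : IsTameRadical p E x w n)
    [CommRing S] [IsDomain S] [Algebra k S] (𝒜 : ℕ → Submodule k S) [GradedAlgebra 𝒜]
    (hS : Algebra.adjoin k (𝒜 1 : Set S) = ⊤) (hS1 : 𝒜 1 ≠ ⊥)
    (m : ℕ) (b : Fin m → S) (hb : Submodule.span k (Set.range b) = 𝒜 1)
    (ξ : S →ₐ[k] K) (hξ : IsGenericPoint 𝒜 ξ)
    (hform : ∀ i, IsProductOfRadicals E x w (ξ (b i)))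
    (U : (Proj 𝒜).Opens) (hU : (U : Set (Proj 𝒜)).Nonempty) :
    IsResolvableVariety (k := k) (X := U.toScheme)
      (U.ι ≫ Proj.toSpecZero 𝒜 ≫ Spec.map (CommRingCat.ofHom (algebraMap k (𝒜 0)))) := by
  classical
  obtain ⟨htop, htr, C, hC⟩ := hx
  have hinf : Infinite E := by
    rcases hE with ⟨h2, -⟩ | ⟨h, -⟩
    · exact infinite_of_trdeg h2
    · exact h
  have hE' : Pool.Agent.W418.LCI.HasLM k E := by
    rcases hE with ⟨h2, hE⟩ | ⟨-, hE⟩
    · exact Pool.Agent.W418.LCI.hasLM_of_surface k E h2 hE
    · exact Pool.Agent.W418.LCI.hasLM_of_models k E hE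
  choose zw hzw hwz using hw.radical
  choose zb eb hzb hbz using hform
  -- all products of forms
  let Z : Fin s ⊕ Fin m → K₀ := Sum.elim zw zb
  have hZ : ∀ l, IsProductOfForms E x (Z l) := by
    rintro (l | l)
    · exact hzw l
    · exact hzb l
  choose q a c e hZe using hZ
  let F : (Σ l, Fin (q l)) → K₀ := fun i =>
    algebraMap E K₀ (a i.1 i.2) + ∑ j, algebraMap E K₀ (c i.1 i.2 j) * x j
  obtain ⟨T, I, hT, hI, M, hFr, hM⟩ := rel_models (k := k) x hE' htop r htr δ C hC
    (factorial_ne_zero_of_lt p (Fact.out : p.Prime) hp) {i : Σ l, Fin (q l) // F i ≠ 0}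
    (fun i => a i.1.1 i.1.2) (fun i => c i.1.1 i.1.2) (fun i => i.2)
  have hZbr : ∀ l, Z l ≠ 0 → IsBr M (Z l) := by
    intro l hl
    rw [hZe l] at hl ⊢
    rw [Finset.prod_ne_zero_iff] at hl
    refine IsBr.prod _ _ fun i _ => ?_
    by_cases h0 : F ⟨l, i⟩ = 0
    · have h1 : e l i = 0 := by
        by_contra h2
        apply hl i (Finset.mem_univ i)
        change F ⟨l, i⟩ ^ e l i = 0
        rw [h0, zero_zpow _ h2]
      rw [h1, zpow_zero]
      exact IsB.one.br
    · exact (hM ⟨⟨l, i⟩, h0⟩).zpow _
  let g : Fin s ⊕ Fin m → K₀ := fun l => if Z l = 0 then 1 else Z l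
  have hg1 : ∀ l, Z l ≠ 0 → g l = Z l := fun l hl => if_neg hl
  have hg : ∀ l, IsBr M (g l) := by
    intro l
    by_cases h : Z l = 0
    · have e1 : g l = 1 := if_pos h
      rw [e1]
      exact IsB.one.br
    · rw [hg1 l h]
      exact hZbr l h
  have hzw0 : ∀ j, zw j ≠ 0 := by
    intro j h
    apply pow_ne_zero (n j) (hw.ne_zero j)
    rw [hwz j, h, map_zero]
  obtain ⟨T', I', hT', hI', M', hFr', hM1, hM2⟩ := Pool.Agent.N762.RC.kummer_isBr p M hFr g hg w
    hw.ne_zero n (fun j h => hw.prime_to j ((CharP.cast_eq_zero_iff k p (n j)).1 h))
    (fun j => Pi.single (Sum.inl j) 1) (fun j => by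
      rw [hwz j, Finset.prod_eq_single (Sum.inl j)]
      · rw [Pi.single_eq_same, zpow_one, hg1 (Sum.inl j) (hzw0 j)]
        rfl
      · intro l _ hl
        rw [Pi.single_eq_of_ne hl, zpow_zero]
      · intro h
        exact absurd (Finset.mem_univ _) h) hw.generate
  refine PJ.isResolvable_open_of_isBr 𝒜 hS ξ hξ.injective hξ.fractions b hb M' hFr'
    (fun j hj => ?_) hS1 U hU
  rw [hbz j] at hj ⊢
  have hz0 : zb j ≠ 0 := by
    intro h
    apply hj
    rw [h, map_zero, zero_mul]
  refine IsBr.mul ?_ (IsBr.prod _ _ fun i _ => (hM2 i).zpow _)
  have h1 := hM1 (Sum.inr j)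
  rw [hg1 (Sum.inr j) hz0] at h1
  exact h1

end Pool.Agent.Results.MP_b525bf_ag.TameRadicalCovers
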